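import Pool.Agent.Y248.ND.Bil

/-! Completion of a system of packets to an orthonormal system of odd tangential families
(for helper5's S_ONB). -/

open Set Filter Topology MeasureTheory

set_option autoImplicit false

namespace Pool.Agent.Y248.ND

open Pool.Agent.Y5 Pool.Agent.Y5.D

noncomputable abbrev H := lp (fun _ : Z3 => E3) 2

/-- a box of integer points -/
noncomputable def box (N : ℕ) : Finset Z3 := Fintype.piFinset (fun _ => Finset.Icc (-(N : ℤ)) N)

theorem mem_box {N : ℕ} {k : Z3} : k ∈ box N ↔ ∀ i, |k i| ≤ N := by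
  simp only [box, Fintype.mem_piFinset, Finset.mem_Icc, abs_le]

theorem card_box (N : ℕ) : (box N).card = (2 * N + 1) ^ 3 := by
  simp only [box, Fintype.card_piFinset, Int.card_Icc, Finset.prod_const, Finset.card_univ,
    Fintype.card_fin]
  congr 1
  omega

theorem mem_box_of {N : ℕ} {k : Z3} (h : ‖vec k‖ ≤ N) : k ∈ box N := by
  rw [mem_box]
  intro i
  have h1 := (abs_le_vec k i).trans h
  exact_mod_cast h1

theorem memlp_of (V : Fam) (T : Finset Z3) (hT : ∀ k, V k ≠ 0 → k ∈ T) :
    Memℓp V 2 := by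
  apply memℓp_gen
  apply summable_of_ne_finset_zero (s := T)
  intro k hk
  have : V k = 0 := by
    by_contra h
    exact hk (hT k h)
  rw [this]
  simp

/-- odd tangential families supported in the group `m` -/
def Em (G : Z3 → ℕ) (m : ℕ) : Submodule ℝ H where
  carrier := {V | OT (V : Z3 → E3) ∧ ∀ k, (V : Z3 → E3) k ≠ 0 → G k = m}
  zero_mem' := by
    refine ⟨⟨fun k => ?_, fun k => ?_⟩, fun k hk => ?_⟩
    · simp
    · simp
    · exact absurd (by simp) hk
  add_mem' := by
    rintro V W ⟨hV, hV'⟩ ⟨hW, hW'⟩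
    refine ⟨⟨fun k => ?_, fun k => ?_⟩, fun k hk => ?_⟩
    · simp only [lp.coeFn_add, Pi.add_apply, hV.odd k, hW.odd k]
      abel
    · simp only [lp.coeFn_add, Pi.add_apply, inner_add_right, hV.tan k, hW.tan k, add_zero]
    · by_contra h
      apply hk
      have h1 : (V : Z3 → E3) k = 0 := by by_contra h2; exact h (hV' k h2)
      have h2 : (W : Z3 → E3) k = 0 := by by_contra h2; exact h (hW' k h2)
      simp only [lp.coeFn_add, Pi.add_apply, h1, h2, add_zero]
  smul_mem' := by
    rintro c V ⟨hV, hV'⟩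
    refine ⟨⟨fun k => ?_, fun k => ?_⟩, fun k hk => ?_⟩
    · simp only [lp.coeFn_smul, Pi.smul_apply, hV.odd k, smul_neg]
    · simp only [lp.coeFn_smul, Pi.smul_apply, inner_smul_right, hV.tan k, mul_zero]
    · apply hV' k
      intro h
      apply hk
      simp only [lp.coeFn_smul, Pi.smul_apply, h, smul_zero]

theorem mem_Em {G : Z3 → ℕ} {m : ℕ} {V : H} :
    V ∈ Em G m ↔ OT (V : Z3 → E3) ∧ ∀ k, (V : Z3 → E3) k ≠ 0 → G k = m := Iff.rfl

theorem supp_box {G : Z3 → ℕ} {N : ℕ → ℕ} (hG : ∀ k, k ≠ 0 → k ∈ box (N (G k))) {m : ℕ} {V : H}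
    (hV : V ∈ Em G m) (k : Z3) (hk : (V : Z3 → E3) k ≠ 0) : k ∈ box (N m) := by
  have h0 : k ≠ 0 := by
    rintro rfl
    exact hk (OT.zero hV.1)
  have := hG k h0
  rwa [hV.2 k hk] at this

/-- evaluation on the box -/
noncomputable def ev (G : Z3 → ℕ) (N : ℕ → ℕ) (m : ℕ) : Em G m →ₗ[ℝ] (box (N m) → E3) where
  toFun V := fun k => ((V : H) : Z3 → E3) k.1
  map_add' V W := by ext; simp
  map_smul' c V := by ext; simp

theorem ev_inj {G : Z3 → ℕ} {N : ℕ → ℕ} (hG : ∀ k, k ≠ 0 → k ∈ box (N (G k))) (m : ℕ) :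
    Function.Injective (ev G N m) := by
  rw [injective_iff_map_eq_zero]
  intro V hV
  apply Subtype.ext
  apply lp.ext
  funext k
  by_contra hk
  have hk' : ((V : H) : Z3 → E3) k ≠ 0 := hk
  have := congrFun hV ⟨k, supp_box hG V.2 k hk'⟩
  exact hk' this

theorem finite_Em {G : Z3 → ℕ} {N : ℕ → ℕ} (hG : ∀ k, k ≠ 0 → k ∈ box (N (G k))) (m : ℕ) :
    Module.Finite ℝ (Em G m) := Module.Finite.of_injective (ev G N m) (ev_inj hG m)

theorem finrank_Em {G : Z3 → ℕ} {N : ℕ → ℕ} (hG : ∀ k, k ≠ 0 → k ∈ box (N (G k))) (m : ℕ) :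
    Module.finrank ℝ (Em G m) ≤ (2 * N m + 1) ^ 3 * 3 := by
  refine (LinearMap.finrank_le_finrank_of_injective (ev_inj hG m)).trans ?_
  rw [Module.finrank_pi_fintype]
  simp only [finrank_euclideanSpace, Fintype.card_fin, Finset.sum_const, Finset.card_univ,
    Fintype.card_coe, card_box, smul_eq_mul, le_refl]

theorem inner_eq_pair (V W : H) : inner ℝ V W = pair V W := lp.inner_eq_tsum V W

theorem basis (G : Z3 → ℕ) (N : ℕ → ℕ) (P : ℕ → Fam) (hG : ∀ k, k ≠ 0 → k ∈ box (N (G k)))
    (hneg : ∀ k, G (-k) = G k) (hP : ∀ n, OT (P n)) (hs : ∀ n k, P n k ≠ 0 → G k = n)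
    (h1 : ∀ n, pair (P n) (P n) = 1) :
    ∃ (J : Type) (g : J → ℕ) (E : Ix J → H), (∀ n, (E (Sum.inl n) : Z3 → E3) = P n) ∧
      Orthonormal ℝ E ∧ (∀ a, OT (E a : Z3 → E3)) ∧
      (∀ a k, (E a : Z3 → E3) k ≠ 0 → G k = gr g a) ∧ (∀ m, {j | g j = m}.Finite) ∧
      (∀ m, {j | g j = m}.ncard ≤ (2 * N m + 1) ^ 3 * 3) ∧
      (∀ V : Fam, OT V → (∀ a, pair V (E a : Z3 → E3) = 0) → ∀ k, V k = 0) := by
  classical
  -- finite support of the packets
  have hfin : ∀ (m : ℕ) (V : Fam), OT V → (∀ k, V k ≠ 0 → G k = m) → ∀ k, V k ≠ 0 →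
      k ∈ box (N m) := by
    intro m V hV h k hk
    have h0 : k ≠ 0 := by
      rintro rfl
      exact hk (OT.zero hV)
    have := hG k h0
    rwa [h k hk] at this
  let mk : ∀ (m : ℕ) (V : Fam), OT V → (∀ k, V k ≠ 0 → G k = m) → Em G m :=
    fun m V hV h => ⟨⟨V, memlp_of V (box (N m)) (hfin m V hV h)⟩, ⟨hV, h⟩⟩
  have mk_coe : ∀ m V hV h, (((mk m V hV h : Em G m) : H) : Z3 → E3) = V := fun _ _ _ _ => rfl
  let pm : ∀ n, Em G n := fun n => mk n (P n) (hP n) (hs n)
  have pm_coe : ∀ n, (((pm n : Em G n) : H) : Z3 → E3) = P n := fun _ => rfl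
  have hfd : ∀ m, FiniteDimensional ℝ (Em G m) := fun m => finite_Em hG m
  have hpm : ∀ n, ‖pm n‖ = 1 := by
    intro n
    have h2 : ‖pm n‖ ^ 2 = 1 := by
      rw [← real_inner_self_eq_norm_sq, Submodule.coe_inner, inner_eq_pair, pm_coe, h1]
    have h3 : (‖pm n‖ - 1) * (‖pm n‖ + 1) = 0 := by linear_combination h2
    rcases mul_eq_zero.1 h3 with h4 | h4
    · linarith
    · have := norm_nonneg (pm n); linarith
  have hon : ∀ n, Orthonormal ℝ ((↑) : ({pm n} : Set (Em G n)) → Em G n) := by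
    intro n
    refine ⟨?_, ?_⟩
    · rintro ⟨x, hx⟩
      rw [mem_singleton_iff] at hx
      subst hx
      exact hpm n
    · rintro ⟨x, hx⟩ ⟨y, hy⟩ hxy
      rw [mem_singleton_iff] at hx hy
      subst hx; subst hy
      exact absurd rfl hxy
  choose u b hvu hb using fun n => (hon n).exists_orthonormalBasis_extension
  have hpu : ∀ n, pm n ∈ u n := fun n => by
    have := hvu n (mem_singleton (pm n))
    exact_mod_cast this
  have hno : ∀ n, ∀ x ∈ u n, ‖(x : H)‖ = 1 := by
    intro n x hx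
    have := (b n).orthonormal.1 ⟨x, hx⟩
    rw [hb n] at this
    exact this
  have hort : ∀ n, ∀ x ∈ u n, ∀ y ∈ u n, x ≠ y → inner ℝ (x : H) (y : H) = 0 := by
    intro n x hx y hy hxy
    have := (b n).orthonormal.2 (i := ⟨x, hx⟩) (j := ⟨y, hy⟩) (by
      intro h; exact hxy (congrArg Subtype.val h))
    rw [hb n] at this
    exact this
  have hdis : ∀ (n m : ℕ) (x : Em G n) (y : Em G m), n ≠ m → inner ℝ (x : H) (y : H) = 0 := by
    intro n m x y hnm
    rw [inner_eq_pair, pair]
    have : ∀ k, inner ℝ (((x : H) : Z3 → E3) k) (((y : H) : Z3 → E3) k) = 0 := by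
      intro k
      by_cases hx : ((x : H) : Z3 → E3) k = 0
      · rw [hx, inner_zero_left]
      · by_cases hy : ((y : H) : Z3 → E3) k = 0
        · rw [hy, inner_zero_right]
        · exact absurd ((x.2.2 k hx).symm.trans (y.2.2 k hy)) hnm
    simp only [this, tsum_zero]
  let J : Type := Σ n : ℕ, {x : Em G n // x ∈ u n ∧ x ≠ pm n}
  let g : J → ℕ := Sigma.fst
  let E : Ix J → H := Sum.elim (fun n => (pm n : H)) (fun j => (j.2.1 : H))
  have hE : ∀ a, ∃ x : Em G (gr g a), x ∈ u (gr g a) ∧ E a = (x : H) := by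
    rintro (n | j)
    · exact ⟨pm n, hpu n, rfl⟩
    · exact ⟨j.2.1, j.2.2.1, rfl⟩
  have hsub : ∀ m, {j : J | g j = m} ⊆
      (fun x : {x : Em G m // x ∈ u m ∧ x ≠ pm m} => (⟨m, x⟩ : J)) '' univ := by
    rintro m ⟨n, x⟩ hj
    have hj' : n = m := hj
    subst hj'
    exact ⟨x, mem_univ _, rfl⟩
  have hfinite : ∀ m, Finite {x : Em G m // x ∈ u m ∧ x ≠ pm m} := by
    intro m
    exact Finite.of_injective (fun x => (⟨x.1, x.2.1⟩ : u m)) (by
      intro x y hxy
      have := congrArg Subtype.val hxy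
      exact Subtype.ext this)
  refine ⟨J, g, E, fun n => pm_coe n, ⟨?_, ?_⟩, ?_, ?_, ?_, ?_, ?_⟩
  · intro a
    obtain ⟨x, hx, hx'⟩ := hE a
    rw [hx']
    exact hno _ x hx
  · rintro (n | ⟨n, x⟩) (m | ⟨m, y⟩) hab
    · exact hdis n m (pm n) (pm m) (fun h => hab (by rw [h]))
    · by_cases hnm : n = m
      · subst hnm
        exact hort n (pm n) (hpu n) y.1 y.2.1 (fun h => y.2.2 h.symm)
      · exact hdis n m (pm n) y.1 hnm
    · by_cases hnm : n = m
      · subst hnm
        exact hort n x.1 x.2.1 (pm n) (hpu n) x.2.2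
      · exact hdis n m x.1 (pm m) hnm
    · by_cases hnm : n = m
      · subst hnm
        exact hort n x.1 x.2.1 y.1 y.2.1 (fun h => hab (by rw [Subtype.ext h]))
      · exact hdis n m x.1 y.1 hnm
  · intro a
    obtain ⟨x, hx, hx'⟩ := hE a
    rw [hx']
    exact x.2.1
  · intro a k hk
    obtain ⟨x, hx, hx'⟩ := hE a
    rw [hx'] at hk
    exact x.2.2 k hk
  · intro m
    have := hfinite m
    exact (finite_univ.image _).subset (hsub m)
  · intro m
    have := hfinite m
    have := hfd m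
    refine (ncard_le_ncard (hsub m) (finite_univ.image _)).trans ?_
    refine (ncard_image_le finite_univ).trans ?_
    rw [ncard_univ]
    have h2 : Nat.card {x : Em G m // x ∈ u m ∧ x ≠ pm m} ≤ Nat.card (u m) :=
      Nat.card_le_card_of_injective (fun x => (⟨x.1, x.2.1⟩ : u m)) (by
        intro x y hxy
        have := congrArg Subtype.val hxy
        exact Subtype.ext this)
    refine h2.trans ?_
    have h3 : Nat.card (u m) = Module.finrank ℝ (Em G m) := by
      rw [Module.finrank_eq_nat_card_basis (b m).toBasis]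
    rw [h3]
    exact finrank_Em hG m
  · intro V hV hpair k
    set n := G k with hn
    have hV' : OT (fun l => if G l = n then V l else 0) := by
      refine ⟨fun l => ?_, fun l => ?_⟩
      · simp only [hneg l]
        split_ifs
        · exact hV.odd l
        · simp
      · split_ifs
        · exact hV.tan l
        · simp
    let W : Em G n := mk n (fun l => if G l = n then V l else 0) hV' (by
      intro l hl
      by_contra h
      exact hl (if_neg h))
    have hW : (((W : Em G n) : H) : Z3 → E3) = fun l => if G l = n then V l else 0 := rfl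
    have hWx : ∀ x ∈ u n, inner ℝ ((x : Em G n) : H) (W : H) = 0 := by
      intro x hx
      have h2 : inner ℝ (W : H) ((x : Em G n) : H) = pair V ((x : H) : Z3 → E3) := by
        rw [inner_eq_pair, pair, pair]
        refine tsum_congr fun l => ?_
        rw [hW]
        simp only
        split_ifs with hl
        · rfl
        · have : ((x : H) : Z3 → E3) l = 0 := by
            by_contra h
            exact hl (x.2.2 l h)
          rw [this, inner_zero_right, inner_zero_right]
      rw [real_inner_comm, h2]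
      by_cases hxp : x = pm n
      · rw [hxp]
        exact hpair (Sum.inl n)
      · exact hpair (Sum.inr ⟨n, x, hx, hxp⟩)
    have hW0 : W = 0 := by
      refine InnerProductSpace.ext_inner_left_basis (b n).toBasis fun i => ?_
      rw [inner_zero_right, OrthonormalBasis.coe_toBasis, hb n, Submodule.coe_inner]
      exact hWx i.1 i.2
    have h3 : ((W : H) : Z3 → E3) k = 0 := by rw [hW0]; rfl
    rw [hW] at h3
    simpa [hn] using h3

end Pool.Agent.Y248.ND
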