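import Pool.Agent.Y5.D.Stm

/-! The trilinear form on coefficients: antisymmetry, finite sums, bounds (for helper5's S_ONB). -/

open Set Filter Topology MeasureTheory

set_option autoImplicit false

namespace Pool.Agent.Y248.ND

open Pool.Agent.Y5 Pool.Agent.Y5.D

theorem vec_neg (k : Z3) : vec (-k) = -vec k := by
  ext i; simp [vec]

theorem vec_sub (k l : Z3) : vec (k - l) = vec k - vec l := by
  ext i; simp [vec]

theorem vec_add (k l : Z3) : vec (k + l) = vec k + vec l := by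
  ext i; simp [vec]

theorem abs_le_vec (k : Z3) (i : Fin 3) : |(k i : ℝ)| ≤ ‖vec k‖ := by
  have := PiLp.norm_apply_le (vec k) i
  simpa [vec] using this

theorem one_le_vec {k : Z3} (hk : k ≠ 0) : 1 ≤ ‖vec k‖ := by
  obtain ⟨i, hi⟩ : ∃ i, k i ≠ 0 := by
    by_contra h
    push Not at h
    exact hk (funext h)
  have h1 := abs_le_vec k i
  have h2 : (1 : ℝ) ≤ |(k i : ℝ)| := by
    have : 1 ≤ |k i| := Int.one_le_abs hi
    exact_mod_cast this
  linarith

theorem OT.zero {V : Fam} (hV : OT V) : V 0 = 0 := by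
  have := hV.odd 0
  rw [neg_zero] at this
  have h2 : (2 : ℝ) • V 0 = 0 := by
    rw [two_smul]
    nth_rewrite 1 [this]
    simp
  exact (smul_eq_zero.1 h2).resolve_left two_ne_zero

/-- the substitution `(p, k) ↦ (-p, k - p)` -/
def sw : Z3 × Z3 ≃ Z3 × Z3 where
  toFun q := (-q.1, q.2 - q.1)
  invFun q := (-q.1, q.2 - q.1)
  left_inv q := by ext <;> simp
  right_inv q := by ext <;> simp

theorem bil_anti (V W Z : Fam) (hV : OT V) : bil V W Z = -bil V Z W := by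
  have h : ∑' q : Z3 × Z3, inner ℝ (V q.1) (vec q.2) * inner ℝ (W (q.2 - q.1)) (Z q.2) =
      -∑' q : Z3 × Z3, inner ℝ (V q.1) (vec q.2) * inner ℝ (Z (q.2 - q.1)) (W q.2) := by
    rw [← sw.tsum_eq, ← tsum_neg]
    refine tsum_congr fun q => ?_
    obtain ⟨p, k⟩ := q
    simp only [sw, Equiv.coe_fn_mk]
    have h1 : k - p - -p = k := by abel
    rw [h1, hV.odd p, vec_sub, inner_neg_left, inner_sub_right, real_inner_comm (vec p) (V p),
      hV.tan p, sub_zero, real_inner_comm (W k)]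
    ring
  unfold bil
  rw [h]
  ring

theorem bil_eq_sum (V W Z : Fam) (T U : Finset Z3) (hT : ∀ k, V k ≠ 0 → k ∈ T)
    (hU : ∀ k, Z k ≠ 0 → k ∈ U) :
    bil V W Z = -(2 * Real.pi) * ∑ k ∈ U, ∑ p ∈ T,
      inner ℝ (V p) (vec k) * inner ℝ (W (k - p)) (Z k) := by
  unfold bil
  rw [tsum_eq_sum (s := T ×ˢ U), Finset.sum_product_right]
  rintro ⟨p, k⟩ h
  simp only
  by_cases h1 : V p = 0
  · rw [h1]; simp
  · by_cases h2 : Z k = 0
    · rw [h2]; simp
    · exact absurd (Finset.mem_product.2 ⟨hT p h1, hU k h2⟩) h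

theorem bil_bound (V W Z : Fam) (T U : Finset Z3) (hT : ∀ k, V k ≠ 0 → k ∈ T)
    (hU : ∀ k, Z k ≠ 0 → k ∈ U) (a b F A : ℝ) (ha : 0 ≤ a) (hb : 0 ≤ b)
    (hV : ∀ s : Finset Z3, ∑ k ∈ s, ‖V k‖ ^ 2 ≤ a ^ 2)
    (hW : ∀ s : Finset Z3, ∑ k ∈ s, ‖W k‖ ^ 2 ≤ b ^ 2)
    (hF : ∀ k, Z k ≠ 0 → ‖vec k‖ ≤ F) (hA : ∑ k ∈ U, ‖Z k‖ ≤ A) (hF0 : 0 ≤ F) :
    |bil V W Z| ≤ 2 * Real.pi * F * A * a * b := by
  rw [bil_eq_sum V W Z T U hT hU, abs_mul, abs_neg, abs_of_pos Real.two_pi_pos]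
  have h1 : |∑ k ∈ U, ∑ p ∈ T, inner ℝ (V p) (vec k) * inner ℝ (W (k - p)) (Z k)| ≤
      F * A * a * b := by
    refine (Finset.abs_sum_le_sum_abs _ _).trans ?_
    have h2 : ∀ k ∈ U, |∑ p ∈ T, inner ℝ (V p) (vec k) * inner ℝ (W (k - p)) (Z k)| ≤
        F * ‖Z k‖ * (a * b) := by
      intro k hk
      by_cases hz : Z k = 0
      · rw [hz]; simp
      have h3 : ∀ p ∈ T, |inner ℝ (V p) (vec k) * inner ℝ (W (k - p)) (Z k)| ≤
          F * ‖Z k‖ * (‖V p‖ * ‖W (k - p)‖) := by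
        intro p _
        rw [abs_mul]
        have e1 := abs_real_inner_le_norm (V p) (vec k)
        have e2 := abs_real_inner_le_norm (W (k - p)) (Z k)
        have e3 := hF k hz
        calc |inner ℝ (V p) (vec k)| * |inner ℝ (W (k - p)) (Z k)|
            ≤ (‖V p‖ * ‖vec k‖) * (‖W (k - p)‖ * ‖Z k‖) :=
              mul_le_mul e1 e2 (abs_nonneg _) (by positivity)
          _ ≤ (‖V p‖ * F) * (‖W (k - p)‖ * ‖Z k‖) := by gcongr
          _ = _ := by ring
      refine (Finset.abs_sum_le_sum_abs _ _).trans ((Finset.sum_le_sum h3).trans ?_)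
      rw [← Finset.mul_sum]
      have h4 : ∑ p ∈ T, ‖V p‖ * ‖W (k - p)‖ ≤ a * b := by
        have h5 := Finset.sum_mul_sq_le_sq_mul_sq T (fun p => ‖V p‖) (fun p => ‖W (k - p)‖)
        have h6 : ∑ p ∈ T, ‖W (k - p)‖ ^ 2 ≤ b ^ 2 := by
          have h7 := hW (T.image (fun p => k - p))
          rw [Finset.sum_image (fun x _ y _ hxy => by simpa using hxy)] at h7
          exact h7
        have h8 : (∑ p ∈ T, ‖V p‖ * ‖W (k - p)‖) ^ 2 ≤ (a * b) ^ 2 := by
          rw [mul_pow]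
          refine h5.trans ?_
          exact mul_le_mul (hV T) h6 (Finset.sum_nonneg fun _ _ => sq_nonneg _) (sq_nonneg _)
        exact abs_le_of_sq_le_sq' h8 (mul_nonneg ha hb) |>.2
      exact mul_le_mul_of_nonneg_left h4 (mul_nonneg hF0 (norm_nonneg _))
    refine (Finset.sum_le_sum h2).trans ?_
    rw [← Finset.sum_mul, ← Finset.mul_sum]
    have : F * ∑ k ∈ U, ‖Z k‖ ≤ F * A := mul_le_mul_of_nonneg_left hA hF0
    calc F * (∑ k ∈ U, ‖Z k‖) * (a * b) ≤ F * A * (a * b) :=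
          mul_le_mul_of_nonneg_right this (mul_nonneg ha hb)
      _ = _ := by ring
  calc 2 * Real.pi * _ ≤ 2 * Real.pi * (F * A * a * b) :=
        mul_le_mul_of_nonneg_left h1 Real.two_pi_pos.le
    _ = _ := by ring

/-- `bil` is bilinear on finite combinations of families supported in `T` -/
theorem bil_sum {I : Type} (s : Finset I) (z : I → ℝ) (e : I → Fam) (Z : Fam) (T U : Finset Z3)
    (hT : ∀ a ∈ s, ∀ k, e a k ≠ 0 → k ∈ T) (hU : ∀ k, Z k ≠ 0 → k ∈ U) :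
    bil (fun k => ∑ a ∈ s, z a • e a k) (fun k => ∑ a ∈ s, z a • e a k) Z =
      ∑ p ∈ s ×ˢ s, bil (e p.1) (e p.2) Z * z p.1 * z p.2 := by
  have h0 : ∀ k, (∑ a ∈ s, z a • e a k) ≠ 0 → k ∈ T := by
    intro k hk
    obtain ⟨a, ha, hne⟩ := Finset.exists_ne_zero_of_sum_ne_zero hk
    exact hT a ha k (fun h => hne (by rw [h, smul_zero]))
  rw [bil_eq_sum _ _ _ T U h0 hU, Finset.sum_product]
  have h1 : ∀ a ∈ s, ∀ b ∈ s, bil (e a) (e b) Z * z a * z b =
      -(2 * Real.pi) * ∑ k ∈ U, ∑ p ∈ T, (z a * inner ℝ (e a p) (vec k)) *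
        (z b * inner ℝ (e b (k - p)) (Z k)) := by
    intro a ha b hb
    rw [bil_eq_sum (e a) (e b) Z T U (hT a ha) hU, mul_assoc, mul_assoc]
    congr 1
    rw [Finset.sum_mul]
    refine Finset.sum_congr rfl fun k _ => ?_
    rw [Finset.sum_mul]
    refine Finset.sum_congr rfl fun p _ => ?_
    ring
  rw [Finset.sum_congr rfl fun a ha => Finset.sum_congr rfl fun b hb => h1 a ha b hb]
  simp_rw [← Finset.mul_sum]
  congr 1
  have h2 : ∀ k ∈ U, ∀ p ∈ T, inner ℝ (∑ a ∈ s, z a • e a p) (vec k) *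
      inner ℝ (∑ a ∈ s, z a • e a (k - p)) (Z k) =
      ∑ a ∈ s, ∑ b ∈ s, (z a * inner ℝ (e a p) (vec k)) *
        (z b * inner ℝ (e b (k - p)) (Z k)) := by
    intro k _ p _
    rw [sum_inner, sum_inner, Finset.sum_mul_sum]
    refine Finset.sum_congr rfl fun a _ => Finset.sum_congr rfl fun b _ => ?_
    rw [real_inner_smul_left, real_inner_smul_left]
  rw [Finset.sum_congr rfl fun k hk => Finset.sum_congr rfl fun p hp => h2 k hk p hp]
  calc ∑ k ∈ U, ∑ p ∈ T, ∑ a ∈ s, ∑ b ∈ s, (z a * inner ℝ (e a p) (vec k)) *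
        (z b * inner ℝ (e b (k - p)) (Z k))
      = ∑ k ∈ U, ∑ a ∈ s, ∑ b ∈ s, ∑ p ∈ T, (z a * inner ℝ (e a p) (vec k)) *
        (z b * inner ℝ (e b (k - p)) (Z k)) := by
        refine Finset.sum_congr rfl fun k _ => ?_
        rw [Finset.sum_comm]
        refine Finset.sum_congr rfl fun a _ => ?_
        rw [Finset.sum_comm]
    _ = _ := by
        rw [Finset.sum_comm]
        refine Finset.sum_congr rfl fun a _ => ?_
        rw [Finset.sum_comm]

end Pool.Agent.Y248.ND
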