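import Pool.Agent.Y248.ND.Bas

/-! Groups of frequencies (for helper5's S_ONB). -/

open Set Filter Topology MeasureTheory

set_option autoImplicit false

namespace Pool.Agent.Y248.ND

open Pool.Agent.Y5 Pool.Agent.Y5.D

section

variable (K : ℕ → ℕ) (h : ℕ → Z3)

open Classical in
/-- the group of a frequency -/
noncomputable def grp (k : Z3) : ℕ :=
  if ∃ m, k = h m ∨ k = -h m then sInf {m | k = h m ∨ k = -h m}
  else sInf {m | 10 * ‖vec k‖ < K (m + 1)}

variable {K h}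

theorem K_pos (h0 : 1 ≤ K 0) (hK : ∀ n, 1000 * K n ≤ K (n + 1)) (n : ℕ) : 1 ≤ K n := by
  induction n with
  | zero => exact h0
  | succ n ih => have := hK n; omega

theorem K_mono (hK : ∀ n, 1000 * K n ≤ K (n + 1)) : Monotone K :=
  monotone_nat_of_le_succ fun n => by have := hK n; omega

theorem K_lt (h0 : 1 ≤ K 0) (hK : ∀ n, 1000 * K n ≤ K (n + 1)) {m n : ℕ} (hmn : m < n) :
    1000 * (K m : ℝ) ≤ K n := by
  have h1 := hK m
  have h2 := K_mono hK (show m + 1 ≤ n from hmn)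
  have : 1000 * K m ≤ K n := h1.trans h2
  exact_mod_cast this

theorem K_unb (h0 : 1 ≤ K 0) (hK : ∀ n, 1000 * K n ≤ K (n + 1)) (n : ℕ) : n < K n := by
  induction n with
  | zero => exact h0
  | succ n ih => have := hK n; omega

theorem vec_neg_norm (k : Z3) : ‖vec (-k)‖ = ‖vec k‖ := by rw [vec_neg, norm_neg]

theorem grp_neg (k : Z3) : grp K h (-k) = grp K h k := by
  have h1 : ∀ m, (-k = h m ∨ -k = -h m) ↔ (k = h m ∨ k = -h m) := by
    intro m
    rw [neg_inj, neg_eq_iff_eq_neg]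
    tauto
  have h2 : {m | -k = h m ∨ -k = -h m} = {m | k = h m ∨ k = -h m} := by
    ext m; exact h1 m
  unfold grp
  rw [h2, vec_neg_norm]
  by_cases hH : ∃ m, k = h m ∨ k = -h m
  · rw [if_pos hH, if_pos ((exists_congr h1).2 hH)]
  · rw [if_neg hH, if_neg (fun h3 => hH ((exists_congr h1).1 h3))]

theorem grp_bounds (h0 : 1 ≤ K 0) (hK : ∀ n, 1000 * K n ≤ K (n + 1))
    (hn : ∀ n, (K (n + 1) : ℝ) ≤ ‖vec (h n)‖ ∧ ‖vec (h n)‖ ≤ 12 / 10 * K (n + 1)) (k : Z3) :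
    ‖vec k‖ ≤ 12 / 10 * K (grp K h k + 1) ∧ (grp K h k = 0 ∨ (K (grp K h k) : ℝ) ≤ 10 * ‖vec k‖) := by
  by_cases hH : ∃ m, k = h m ∨ k = -h m
  · have h1 : grp K h k ∈ {m | k = h m ∨ k = -h m} := by
      unfold grp
      rw [if_pos hH]
      exact Nat.sInf_mem hH
    have h2 : ‖vec k‖ = ‖vec (h (grp K h k))‖ := by
      rcases h1 with h2 | h2
      · rw [← h2]
      · nth_rewrite 1 [h2]
        rw [vec_neg_norm]
    have h3 := hn (grp K h k)
    rw [← h2] at h3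
    refine ⟨h3.2, Or.inr ?_⟩
    have h4 := K_lt h0 hK (Nat.lt_succ_self (grp K h k))
    have h5 : (0 : ℝ) ≤ K (grp K h k) := Nat.cast_nonneg _
    have h6 := h3.1
    simp only [Nat.succ_eq_add_one] at h4
    linarith
  · have hne : {m | 10 * ‖vec k‖ < K (m + 1)}.Nonempty := by
      obtain ⟨m, hm⟩ := exists_nat_gt (10 * ‖vec k‖)
      refine ⟨m, hm.trans ?_⟩
      have := K_unb h0 hK (m + 1)
      have h2 : m < K (m + 1) := by omega
      exact_mod_cast h2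
    have hg : grp K h k = sInf {m | 10 * ‖vec k‖ < K (m + 1)} := by
      unfold grp
      rw [if_neg hH]
    have h1 : 10 * ‖vec k‖ < K (grp K h k + 1) := by
      have := Nat.sInf_mem hne
      rw [← hg] at this
      exact this
    refine ⟨?_, ?_⟩
    · have := norm_nonneg (vec k)
      linarith
    · rcases Nat.eq_zero_or_pos (grp K h k) with h2 | h2
      · exact Or.inl h2
      · right
        by_contra hcon
        push Not at hcon
        have h3 : grp K h k - 1 ∈ {m | 10 * ‖vec k‖ < K (m + 1)} := by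
          show 10 * ‖vec k‖ < K (grp K h k - 1 + 1)
          rw [Nat.sub_add_cancel h2]
          exact hcon
        have h4 := Nat.sInf_le h3
        rw [← hg] at h4
        omega

theorem h_level (h0 : 1 ≤ K 0) (hK : ∀ n, 1000 * K n ≤ K (n + 1))
    (hn : ∀ n, (K (n + 1) : ℝ) ≤ ‖vec (h n)‖ ∧ ‖vec (h n)‖ ≤ 12 / 10 * K (n + 1)) {k : Z3} {n m : ℕ}
    (hk : (K n : ℝ) ≤ ‖vec k‖ ∧ ‖vec k‖ ≤ 13 / 10 * K n) (hm : k = h m ∨ k = -h m) :
    n = m + 1 := by
  have h2 : ‖vec k‖ = ‖vec (h m)‖ := by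
    rcases hm with h2 | h2
    · rw [← h2]
    · rw [h2, vec_neg_norm]
  have h3 := hn m
  rw [← h2] at h3
  have hKn : (1 : ℝ) ≤ K n := by exact_mod_cast K_pos h0 hK n
  have hKm : (1 : ℝ) ≤ K (m + 1) := by exact_mod_cast K_pos h0 hK (m + 1)
  rcases lt_trichotomy n (m + 1) with h4 | h4 | h4
  · exfalso
    have := K_lt h0 hK h4
    linarith [h3.1, hk.2]
  · exact h4
  · exfalso
    have := K_lt h0 hK h4
    linarith [h3.2, hk.1]

theorem grp_h (h0 : 1 ≤ K 0) (hK : ∀ n, 1000 * K n ≤ K (n + 1))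
    (hn : ∀ n, (K (n + 1) : ℝ) ≤ ‖vec (h n)‖ ∧ ‖vec (h n)‖ ≤ 12 / 10 * K (n + 1)) {k : Z3} {n : ℕ}
    (hk : k = h n ∨ k = -h n) : grp K h k = n := by
  have hH : ∃ m, k = h m ∨ k = -h m := ⟨n, hk⟩
  have h1 : grp K h k ∈ {m | k = h m ∨ k = -h m} := by
    unfold grp
    rw [if_pos hH]
    exact Nat.sInf_mem hH
  have h2 : ‖vec k‖ = ‖vec (h n)‖ := by
    rcases hk with h2 | h2
    · rw [← h2]
    · rw [h2, vec_neg_norm]
  have h3 := hn n
  rw [← h2] at h3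
  have hp : (0 : ℝ) ≤ K (n + 1) := Nat.cast_nonneg _
  have h4 := h_level h0 hK hn (n := n + 1) (m := grp K h k) ⟨h3.1, by linarith [h3.2]⟩ h1
  omega

theorem grp_main (h0 : 1 ≤ K 0) (hK : ∀ n, 1000 * K n ≤ K (n + 1)) {k : Z3} {n : ℕ}
    (hk : (K n : ℝ) ≤ ‖vec k‖ ∧ ‖vec k‖ ≤ 13 / 10 * K n) (hne : ¬ ∃ m, k = h m ∨ k = -h m) :
    grp K h k = n := by
  have hg : grp K h k = sInf {m | 10 * ‖vec k‖ < K (m + 1)} := by
    unfold grp
    rw [if_neg hne]
  have hKn : (1 : ℝ) ≤ K n := by exact_mod_cast K_pos h0 hK n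
  have h1 : n ∈ {m | 10 * ‖vec k‖ < K (m + 1)} := by
    show 10 * ‖vec k‖ < K (n + 1)
    have := K_lt h0 hK (Nat.lt_succ_self n)
    simp only [Nat.succ_eq_add_one] at this
    linarith [hk.2]
  have h2 : grp K h k ≤ n := by rw [hg]; exact Nat.sInf_le h1
  have h3 : grp K h k ∈ {m | 10 * ‖vec k‖ < K (m + 1)} := by
    rw [hg]
    exact Nat.sInf_mem ⟨n, h1⟩
  by_contra h4
  have h5 : grp K h k + 1 ≤ n := by omega
  have h6 : (K (grp K h k + 1) : ℝ) ≤ K n := by exact_mod_cast K_mono hK h5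
  have h7 : 10 * ‖vec k‖ < K (grp K h k + 1) := h3
  linarith [hk.1]

end

/-- the groups of the frequencies of the packets -/
theorem grp_P {K : ℕ → ℕ} {γ : ℕ → ℝ} {β D : ℝ} {p : ℕ} {h : ℕ → Z3} {P : ℕ → Fam}
    {C : ℕ → ℝ} {B : ℕ → ℕ → ℝ} (hT : Tab K γ β D p h P C B) (h0 : 1 ≤ K 0)
    (hK : ∀ n, 1000 * K n ≤ K (n + 1)) {n : ℕ} {k : Z3} (hk : P n k ≠ 0) : grp K h k = n := by
  rcases hT.supp n k hk with h1 | h1
  · apply grp_main h0 hK h1
    rintro ⟨m, hm⟩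
    have h2 := h_level h0 hK hT.hnorm h1 hm
    subst h2
    have h3 := hT.hdist m k hk h1.2
    have hKm : (1 : ℝ) ≤ K m := by exact_mod_cast K_pos h0 hK m
    rcases hm with h4 | h4
    · have h5 := h3.1
      rw [h4, sub_self] at h5
      simp [vec] at h5
      have h6 : ‖(WithLp.toLp 2 (fun _ : Fin 3 => (0 : ℝ)) : E3)‖ = 0 := by
        rw [norm_eq_zero]; rfl
      linarith
    · have h5 := h3.2
      rw [h4, neg_add_cancel] at h5
      simp [vec] at h5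
      have h6 : ‖(WithLp.toLp 2 (fun _ : Fin 3 => (0 : ℝ)) : E3)‖ = 0 := by
        rw [norm_eq_zero]; rfl
      linarith
  · exact grp_h h0 hK hT.hnorm h1

end Pool.Agent.Y248.ND
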