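import Pool.Agent.Y248.ND.Grp

/-! Completion of the packets to an orthonormal system; kernel bounds: helper5's S_ONB. -/

open Set Filter Topology MeasureTheory

set_option autoImplicit false

namespace Pool.Agent.Y248.ND

open Pool.Agent.Y5 Pool.Agent.Y5.D

theorem norm_sq_eq_tsum (V : H) : HasSum (fun k => ‖(V : Z3 → E3) k‖ ^ 2) (‖V‖ ^ 2) := by
  have h1 := lp.summable_inner V V (𝕜 := ℝ)
  have h2 := lp.inner_eq_tsum V V (𝕜 := ℝ)
  rw [real_inner_self_eq_norm_sq] at h2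
  rw [h2]
  have h3 : (fun k => inner ℝ ((V : Z3 → E3) k) ((V : Z3 → E3) k)) =
      fun k => ‖(V : Z3 → E3) k‖ ^ 2 := by
    funext k
    rw [real_inner_self_eq_norm_sq]
  rw [h3] at h1 ⊢
  exact h1.hasSum

theorem sum_sq_le (V : H) (s : Finset Z3) : ∑ k ∈ s, ‖(V : Z3 → E3) k‖ ^ 2 ≤ ‖V‖ ^ 2 :=
  sum_le_hasSum s (fun _ _ => sq_nonneg _) (norm_sq_eq_tsum V)

theorem l1_le (V : H) (N : ℕ) (hV : ‖V‖ = 1) :
    (∑ k ∈ box N, ‖(V : Z3 → E3) k‖) ^ 2 ≤ (2 * N + 1 : ℝ) ^ 3 := by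
  have h1 := Finset.sum_mul_sq_le_sq_mul_sq (box N) (fun _ => (1 : ℝ))
    (fun k => ‖(V : Z3 → E3) k‖)
  have h2 := sum_sq_le V (box N)
  rw [hV] at h2
  simp only [one_mul, one_pow, Finset.sum_const, card_box, nsmul_eq_mul, mul_one] at h1
  push_cast at h1
  refine h1.trans ?_
  have h3 : (0 : ℝ) ≤ (2 * N + 1 : ℝ) ^ 3 := by positivity
  nlinarith

section kern

variable {J : Type} (g : J → ℕ) (K : ℕ → ℕ) (E : Ix J → H)

/-- frequency bounds -/
structure Frq : Prop where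
  K0 : 1 ≤ K 0
  hK : ∀ n, 1000 * K n ≤ K (n + 1)
  up : ∀ a k, (E a : Z3 → E3) k ≠ 0 → ‖vec k‖ ≤ 12 / 10 * K (gr g a + 1)
  lo : ∀ a k, (E a : Z3 → E3) k ≠ 0 → gr g a = 0 ∨ (K (gr g a) : ℝ) ≤ 10 * ‖vec k‖
  ne : ∀ a k, (E a : Z3 → E3) k ≠ 0 → k ≠ 0
  on : Orthonormal ℝ E
  ot : ∀ a, OT (E a : Z3 → E3)

variable {g K E}

theorem Frq.pos (hF : Frq g K E) (n : ℕ) : (1 : ℝ) ≤ K n := by
  exact_mod_cast K_pos hF.K0 hF.hK n

theorem Frq.box (hF : Frq g K E) (a : Ix J) (k : Z3) (hk : (E a : Z3 → E3) k ≠ 0) :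
    k ∈ box (2 * K (gr g a + 1)) := by
  apply mem_box_of
  have := hF.up a k hk
  have h2 := hF.pos (gr g a + 1)
  push_cast
  linarith

/-- `l¹` norms -/
theorem Frq.l1 (hF : Frq g K E) (a : Ix J) :
    ∑ k ∈ Pool.Agent.Y248.ND.box (2 * K (gr g a + 1)), ‖(E a : Z3 → E3) k‖ ≤
      12 * (K (gr g a + 1) : ℝ) ^ 2 := by
  have h1 := l1_le (E a) (2 * K (gr g a + 1)) (hF.on.1 a)
  have h2 := hF.pos (gr g a + 1)
  set x : ℝ := (K (gr g a + 1) : ℝ) with hx
  have h3 : (2 * ((2 * K (gr g a + 1) : ℕ) : ℝ) + 1 : ℝ) ^ 3 ≤ (12 * x ^ 2) ^ 2 := by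
    push_cast
    rw [← hx]
    have h4 : 2 * (2 * x) + 1 ≤ 5 * x := by linarith
    have h5 : (2 * (2 * x) + 1) ^ 3 ≤ (5 * x) ^ 3 := pow_le_pow_left₀ (by linarith) h4 3
    refine h5.trans ?_
    have h6 : (12 * x ^ 2) ^ 2 - (5 * x) ^ 3 = x ^ 3 * (144 * x - 125) := by ring
    have h7 : 0 ≤ x ^ 3 * (144 * x - 125) := mul_nonneg (by positivity) (by linarith)
    linarith
  exact abs_le_of_sq_le_sq' (h1.trans h3) (by positivity) |>.2

/-- the bound of the trilinear form -/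
theorem Frq.tri (hF : Frq g K E) (j : Ix J) (V W : H) (T : Finset Z3)
    (hT : ∀ k, (V : Z3 → E3) k ≠ 0 → k ∈ T) :
    |bil (V : Z3 → E3) (W : Z3 → E3) (E j : Z3 → E3)| ≤
      10 ^ 4 * (K (gr g j + 1) : ℝ) ^ 3 * (‖V‖ * ‖W‖) := by
  have h1 := bil_bound V W (E j) T (Pool.Agent.Y248.ND.box (2 * K (gr g j + 1))) hT
    (hF.box j) ‖V‖ ‖W‖ (12 / 10 * K (gr g j + 1)) (12 * (K (gr g j + 1) : ℝ) ^ 2)
    (norm_nonneg _) (norm_nonneg _) (sum_sq_le V) (sum_sq_le W) (hF.up j) (hF.l1 j) (by positivity)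
  refine h1.trans ?_
  have h2 := Real.pi_lt_four
  have h3 : 0 ≤ (K (gr g j + 1) : ℝ) ^ 3 * (‖V‖ * ‖W‖) := by positivity
  have h4 : 2 * Real.pi * (12 / 10 * (K (gr g j + 1) : ℝ)) * (12 * (K (gr g j + 1) : ℝ) ^ 2) *
      ‖V‖ * ‖W‖ = (144 / 5 * Real.pi) * ((K (gr g j + 1) : ℝ) ^ 3 * (‖V‖ * ‖W‖)) := by ring
  rw [h4, mul_assoc (10 ^ 4)]
  exact mul_le_mul_of_nonneg_right (by linarith) h3

theorem tri_ne (a b j : Ix J) (hc : bil (E a : Z3 → E3) (E b : Z3 → E3) (E j : Z3 → E3) ≠ 0) :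
    ∃ p k, (E a : Z3 → E3) p ≠ 0 ∧ (E b : Z3 → E3) (k - p) ≠ 0 ∧ (E j : Z3 → E3) k ≠ 0 := by
  by_contra hcon
  push Not at hcon
  apply hc
  unfold bil
  have : ∀ q : Z3 × Z3, inner ℝ ((E a : Z3 → E3) q.1) (vec q.2) *
      inner ℝ ((E b : Z3 → E3) (q.2 - q.1)) ((E j : Z3 → E3) q.2) = 0 := by
    rintro ⟨p, k⟩
    simp only
    by_cases h1 : (E a : Z3 → E3) p = 0
    · rw [h1]; simp
    · by_cases h2 : (E b : Z3 → E3) (k - p) = 0
      · rw [h2]; simp
      · rw [hcon p k h1 h2]; simp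
  simp only [this, tsum_zero, mul_zero]

theorem Frq.near3 (hF : Frq g K E) (a b c : Ix J) (x y z : Z3) (hx : (E a : Z3 → E3) x ≠ 0)
    (hy : (E b : Z3 → E3) y ≠ 0) (hz : (E c : Z3 → E3) z ≠ 0)
    (htri : ‖vec x‖ ≤ ‖vec y‖ + ‖vec z‖) : gr g a ≤ max (gr g b) (gr g c) + 1 := by
  by_contra hcon
  push Not at hcon
  set m := max (gr g b) (gr g c) with hm
  have h1 := hF.up b y hy
  have h2 := hF.up c z hz
  have h3 : (K (gr g b + 1) : ℝ) ≤ K (m + 1) := by
    exact_mod_cast K_mono hF.hK (Nat.succ_le_succ (le_max_left _ _))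
  have h4 : (K (gr g c + 1) : ℝ) ≤ K (m + 1) := by
    exact_mod_cast K_mono hF.hK (Nat.succ_le_succ (le_max_right _ _))
  have h5 := K_lt hF.K0 hF.hK hcon
  have h6 := hF.pos (m + 1)
  rcases hF.lo a x hx with h7 | h7
  · omega
  · linarith

theorem Frq.quad (hF : Frq g K E) (j : Ix J) (z : Ix J → ℝ) (hz : Summable (fun a => z a ^ 2)) :
    |qd (fun j a b => bil (E a : Z3 → E3) (E b : Z3 → E3) (E j : Z3 → E3)) z j| ≤
      10 ^ 4 * (K (gr g j + 1) : ℝ) ^ 3 * ∑' a, z a ^ 2 := by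
  classical
  unfold qd
  set M : ℝ := 10 ^ 4 * (K (gr g j + 1) : ℝ) ^ 3 with hM
  have hM0 : 0 ≤ M := by positivity
  set f : Ix J × Ix J → ℝ := fun p =>
    bil (E p.1 : Z3 → E3) (E p.2 : Z3 → E3) (E j : Z3 → E3) * z p.1 * z p.2 with hf
  by_cases hs : Summable f
  · have h1 : Tendsto (fun s : Finset (Ix J) => s ×ˢ s) atTop atTop := by
      refine tendsto_atTop_finset_of_monotone ?_ ?_
      · intro s t hst
        exact Finset.product_subset_product hst hst
      · rintro ⟨a, b⟩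
        refine ⟨{a, b}, ?_⟩
        simp
    have h2 : Tendsto (fun s : Finset (Ix J) => ∑ p ∈ s ×ˢ s, f p) atTop (𝓝 (∑' p, f p)) :=
      hs.hasSum.comp h1
    refine le_of_tendsto h2.abs (Eventually.of_forall fun s => ?_)
    -- the finite combination
    set V : H := ∑ a ∈ s, z a • E a with hV
    have hVc : (V : Z3 → E3) = fun k => ∑ a ∈ s, z a • (E a : Z3 → E3) k := by
      funext k
      rw [hV, lp.coeFn_sum, Finset.sum_apply]
      rfl
    set T : Finset Z3 := s.biUnion (fun a => Pool.Agent.Y248.ND.box (2 * K (gr g a + 1))) with hT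
    have hT1 : ∀ a ∈ s, ∀ k, (E a : Z3 → E3) k ≠ 0 → k ∈ T := by
      intro a ha k hk
      exact Finset.mem_biUnion.2 ⟨a, ha, hF.box a k hk⟩
    have hT2 : ∀ k, (V : Z3 → E3) k ≠ 0 → k ∈ T := by
      intro k hk
      rw [hVc] at hk
      obtain ⟨a, ha, hne⟩ := Finset.exists_ne_zero_of_sum_ne_zero hk
      exact hT1 a ha k (fun h => hne (by rw [h, smul_zero]))
    have h3 := bil_sum s z (fun a => (E a : Z3 → E3)) (E j : Z3 → E3) T
      (Pool.Agent.Y248.ND.box (2 * K (gr g j + 1))) hT1 (hF.box j)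
    rw [← hVc] at h3
    have h4 : ∑ p ∈ s ×ˢ s, f p = bil (V : Z3 → E3) (V : Z3 → E3) (E j : Z3 → E3) := h3.symm
    rw [h4]
    refine (hF.tri j V V T hT2).trans ?_
    apply mul_le_mul_of_nonneg_left _ hM0
    have h5 : ‖V‖ * ‖V‖ = ∑ a ∈ s, z a ^ 2 := by
      rw [← real_inner_self_eq_norm_mul_norm, hV, hF.on.inner_sum]
      refine Finset.sum_congr rfl fun a _ => ?_
      simp [sq]
    rw [h5]
    exact hz.sum_le_tsum s (fun _ _ => sq_nonneg _)
  · rw [tsum_eq_zero_of_not_summable hs, abs_zero]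
    exact mul_nonneg hM0 (tsum_nonneg fun _ => sq_nonneg _)

end kern

/-- different packets do not have frequencies close to each other -/
theorem Psep {K : ℕ → ℕ} {γ : ℕ → ℝ} {β D : ℝ} {p : ℕ} {h : ℕ → Z3} {P : ℕ → Fam}
    {C : ℕ → ℝ} {B : ℕ → ℕ → ℝ} (hT : Tab K γ β D p h P C B) (h0 : 1 ≤ K 0)
    (hK : ∀ n, 1000 * K n ≤ K (n + 1)) {n m l : ℕ} (hl : l + 2 ≤ n) (hnm : n ≠ m) {k q : Z3}
    (hk : P n k ≠ 0) (hq : P m q ≠ 0) (hd : ‖vec (k - q)‖ ≤ 12 / 10 * K l) : False := by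
  have hpos : ∀ n, (1 : ℝ) ≤ K n := fun n => by exact_mod_cast K_pos h0 hK n
  have hd' : ‖vec (q - k)‖ ≤ 12 / 10 * K l := by
    rw [← neg_sub, vec_neg_norm]; exact hd
  have hkq : |‖vec k‖ - ‖vec q‖| ≤ 12 / 10 * K l := by
    have := abs_norm_sub_norm_le (vec k) (vec q)
    rw [← vec_sub] at this
    exact this.trans hd
  obtain ⟨hkq1, hkq2⟩ := abs_le.1 hkq
  -- levels
  have lev : ∀ (n : ℕ) (k : Z3), P n k ≠ 0 →
      ((K n : ℝ) ≤ ‖vec k‖ ∧ ‖vec k‖ ≤ 13 / 10 * K n) ∨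
      ((k = h n ∨ k = -h n) ∧ (K (n + 1) : ℝ) ≤ ‖vec k‖ ∧ ‖vec k‖ ≤ 13 / 10 * K (n + 1)) := by
    intro n k hk
    rcases hT.supp n k hk with h1 | h1
    · exact Or.inl h1
    · right
      refine ⟨h1, ?_⟩
      have h2 : ‖vec k‖ = ‖vec (h n)‖ := by
        rcases h1 with h2 | h2
        · rw [h2]
        · rw [h2, vec_neg_norm]
      rw [h2]
      have := hT.hnorm n
      have := hpos (n + 1)
      exact ⟨(hT.hnorm n).1, by linarith [(hT.hnorm n).2]⟩
  -- comparable norms imply equal levels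
  have key : ∀ a b : ℕ, n ≤ a → ((K a : ℝ) ≤ ‖vec k‖ ∧ ‖vec k‖ ≤ 13 / 10 * K a) →
      ((K b : ℝ) ≤ ‖vec q‖ ∧ ‖vec q‖ ≤ 13 / 10 * K b) → a = b := by
    intro a b hna ha hb
    have hla : 1000 * (K l : ℝ) ≤ K a := K_lt h0 hK (by omega)
    rcases lt_trichotomy a b with h1 | h1 | h1
    · exfalso
      have h2 := K_lt h0 hK h1
      have := hpos a
      linarith [ha.2, hb.1]
    · exact h1
    · exfalso
      have h2 := K_lt h0 hK h1
      have := hpos a
      linarith [ha.1, hb.2]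
  rcases lev n k hk with h1 | ⟨h1, h1'⟩
  · rcases lev m q hq with h2 | ⟨h2, h2'⟩
    · exact hnm (key n m le_rfl h1 h2)
    · have h3 := key n (m + 1) le_rfl h1 h2'
      subst h3
      have h4 := hT.hdist m k hk h1.2
      have hlm : 1000 * (K l : ℝ) ≤ K m := K_lt h0 hK (by omega)
      have := hpos m
      rcases h2 with h5 | h5
      · rw [h5] at hd
        linarith [h4.1]
      · rw [h5, sub_neg_eq_add] at hd
        linarith [h4.2]
  · rcases lev m q hq with h2 | ⟨h2, h2'⟩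
    · have h3 := key (n + 1) m (by omega) h1' h2
      subst h3
      have h4 := hT.hdist n q hq h2.2
      have hlm : 1000 * (K l : ℝ) ≤ K n := K_lt h0 hK (by omega)
      have := hpos n
      rcases h1 with h5 | h5
      · rw [h5] at hd'
        linarith [h4.1]
      · rw [h5, sub_neg_eq_add] at hd'
        linarith [h4.2]
    · have h3 := key (n + 1) (m + 1) (by omega) h1' h2'
      omega

theorem t_ONB : Pool.Agent.Y5.D.S_ONB := by
  intro hTAB hSEQ ν hν
  obtain ⟨β, D, p, K₁, hβ, hD, hK₁, hTAB⟩ := hTAB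
  obtain ⟨K, γ, lm, ℓ, q1, q2, q3, q4, q5, q6, q7, q8, q9, q10, q11, q12⟩ :=
    hSEQ ν β D p K₁ hν hβ hD hK₁
  obtain ⟨h, P, C, B, hT⟩ := hTAB K γ q1 q3 q5 q6
  have h0 : 1 ≤ K 0 := by omega
  have hpos : ∀ n, (1 : ℝ) ≤ K n := fun n => by exact_mod_cast K_pos h0 q4 n
  set G : Z3 → ℕ := grp K h with hG
  have hGb := grp_bounds h0 q4 hT.hnorm
  have hbox : ∀ k, k ≠ 0 → k ∈ box (2 * K (G k + 1)) := by
    intro k _
    apply mem_box_of
    have := (hGb k).1
    have h2 := hpos (G k + 1)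
    push_cast
    linarith
  obtain ⟨J, g, E, e1, e2, e3, e4, e5, e6, e7⟩ := basis G (fun n => 2 * K (n + 1)) P hbox
    (fun k => grp_neg k) hT.ot (fun n k hk => grp_P hT h0 q4 hk) hT.norm1
  have hF : Frq g K E :=
    { K0 := h0
      hK := q4
      up := fun a k hk => by
        have := (hGb k).1
        rw [← hG, e4 a k hk] at this
        exact this
      lo := fun a k hk => by
        have := (hGb k).2
        rw [← hG, e4 a k hk] at this
        exact this
      ne := fun a k hk => by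
        rintro rfl
        exact hk (OT.zero (e3 a))
      on := e2
      ot := e3 }
  have hl1 : ∀ a, ∑' k, ‖(E a : Z3 → E3) k‖ ≤ 10 ^ 4 * (K (gr g a + 1) : ℝ) ^ 3 := by
    intro a
    have h1 : ∑' k, ‖(E a : Z3 → E3) k‖ = ∑ k ∈ box (2 * K (gr g a + 1)), ‖(E a : Z3 → E3) k‖ := by
      apply tsum_eq_sum
      intro k hk
      have : (E a : Z3 → E3) k = 0 := by
        by_contra h2
        exact hk (hF.box a k h2)
      rw [this, norm_zero]
    rw [h1]
    refine (hF.l1 a).trans ?_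
    have h2 := hpos (gr g a + 1)
    have h3 : (K (gr g a + 1) : ℝ) ^ 2 ≤ (K (gr g a + 1) : ℝ) ^ 3 :=
      pow_le_pow_right₀ h2 (by norm_num)
    have h4 : 0 ≤ (K (gr g a + 1) : ℝ) ^ 2 := by positivity
    linarith
  have hPE : ∀ n, (E (Sum.inl n) : Z3 → E3) = P n := e1
  refine ⟨J, g, fun n => 12 / 10 * K (n + 1), lm, fun n => β * (K n ^ 2 * √(K n)), C, ℓ,
    fun n => 10 ^ 4 * (K (n + 1) : ℝ) ^ 3, fun n => D * (K n * √(K n)), B,
    fun a => (E a : Z3 → E3), ?_, ?_, ?_⟩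
  · refine
      { ot := e3
        fsupp := fun a k hk => ⟨one_le_vec (hF.ne a k hk), hF.up a k hk⟩
        F_le := ?_
        lowf := ?_
        disj := fun a b k ha hb => by rw [← e4 a k ha, ← e4 b k hb]
        orth := ?_
        compl := e7
        coer := ?_
        l1 := hl1
        N0 := q8
        N_grow := q9
        N_le := q10
        l1N := ?_
        pt := ?_ }
    · intro n
      have h2 := hpos (n + 1)
      have h3 : (K (n + 1) : ℝ) ≤ (K (n + 1) : ℝ) ^ 3 := le_self_pow₀ h2 (by norm_num)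
      show 12 / 10 * (K (n + 1) : ℝ) ≤ 10 ^ 4 * (K (n + 1) : ℝ) ^ 3
      linarith
    · refine ⟨1 + β * ((K 0 : ℝ) ^ 2 * √(K 0)), by positivity, fun a k hk => ?_⟩
      show β * ((K (gr g a) : ℝ) ^ 2 * √(K (gr g a))) ≤ _
      have hk1 := one_le_vec (hF.ne a k hk)
      have hk3 : 1 ≤ ‖vec k‖ ^ 3 := one_le_pow₀ hk1
      have hL0 : 0 ≤ β * ((K 0 : ℝ) ^ 2 * √(K 0)) := by positivity
      rcases hF.lo a k hk with h1 | h1
      · rw [h1]
        nlinarith
      · have h2 := q11 (gr g a)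
        have h3 : (K (gr g a) : ℝ) ^ 3 ≤ (10 * ‖vec k‖) ^ 3 :=
          pow_le_pow_left₀ (Nat.cast_nonneg _) h1 3
        have h4 : (10 * ‖vec k‖) ^ 3 / 1000 = ‖vec k‖ ^ 3 := by ring
        nlinarith
    · intro a b
      refine ⟨?_, fun hab => ?_⟩
      · rintro rfl
        rw [← inner_eq_pair, real_inner_self_eq_norm_sq, e2.1 a, one_pow]
      · rw [← inner_eq_pair]
        exact e2.2 hab
    · intro n
      show 2 * (ν * ((2 * Real.pi) ^ 2 * ∑' k, ‖vec k‖ ^ 2 * ‖(E (Sum.inl n) : Z3 → E3) k‖ ^ 2)) ≤ ℓ n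
      rw [hPE n]
      refine le_trans ?_ (q7 n)
      have := hT.h1 n
      gcongr
    · intro n
      show ∑' k, ‖(E (Sum.inl n) : Z3 → E3) k‖ ≤ _
      rw [hPE n]
      exact hT.l1 n
    · intro n
      obtain ⟨y, hy⟩ := hT.pt n
      refine ⟨y, ?_⟩
      show _ ≤ ‖∑' k : Z3, Real.sin (2 * Real.pi * inner ℝ (vec k) y) • (E (Sum.inl n) : Z3 → E3) k‖
      rw [hPE n]
      exact hy
  · exact q12 C B hT.C_lo hT.C_hi hT.B_lo hT.B_hi
  · have hanti : ∀ j a b : Ix J, bil (E a : Z3 → E3) (E b : Z3 → E3) (E j : Z3 → E3) =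
        -bil (E a : Z3 → E3) (E j : Z3 → E3) (E b : Z3 → E3) := fun j a b => bil_anti _ _ _ (e3 a)
    have hsize : ∀ j a b : Ix J, |bil (E a : Z3 → E3) (E b : Z3 → E3) (E j : Z3 → E3)| ≤
        10 ^ 4 * (K (gr g j + 1) : ℝ) ^ 3 := by
      intro j a b
      have h1 := hF.tri j (E a) (E b) (box (2 * K (gr g a + 1))) (hF.box a)
      rw [e2.1 a, e2.1 b, mul_one, mul_one] at h1
      exact h1
    refine
      { fin := e5
        card := ?_
        anti := hanti
        near := ?_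
        size := hsize
        quad := fun j z hz => hF.quad j z hz
        low := ?_
        sep := ?_
        tab := ?_ }
    · intro m
      have h1 := e6 m
      have h2 : ((({j | g j = m}.ncard : ℕ)) : ℝ) ≤ ((((2 * (2 * K (m + 1)) + 1) ^ 3 * 3 : ℕ)) : ℝ) := by
        exact_mod_cast h1
      refine h2.trans ?_
      push_cast
      have h3 := hpos (m + 1)
      have h4 : (2 * (2 * (K (m + 1) : ℝ)) + 1) ^ 3 ≤ (5 * (K (m + 1) : ℝ)) ^ 3 :=
        pow_le_pow_left₀ (by linarith) (by linarith) 3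
      have h5 : 0 ≤ (K (m + 1) : ℝ) ^ 3 := by positivity
      nlinarith
    · intro j a b hc
      obtain ⟨p', k, h1, h2, h3⟩ := tri_ne a b j hc
      have t1 : ‖vec k‖ ≤ ‖vec p'‖ + ‖vec (k - p')‖ := by
        rw [vec_sub]
        have := norm_add_le (vec p') (vec k - vec p')
        rwa [add_sub_cancel] at this
      have t2 : ‖vec p'‖ ≤ ‖vec k‖ + ‖vec (k - p')‖ := by
        rw [vec_sub]
        have := norm_sub_le (vec k) (vec k - vec p')
        rwa [sub_sub_cancel] at this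
      have t3 : ‖vec (k - p')‖ ≤ ‖vec k‖ + ‖vec p'‖ := by
        rw [vec_sub]
        exact norm_sub_le _ _
      exact ⟨hF.near3 j a b k p' (k - p') h3 h1 h2 t1, hF.near3 a j b p' k (k - p') h1 h3 h2 t2,
        hF.near3 b j a (k - p') k p' h2 h3 h1 t3⟩
    · intro n w
      show |bil (E (Sum.inl n) : Z3 → E3) (E (Sum.inr w) : Z3 → E3) (E (Sum.inl n) : Z3 → E3)| ≤ _
      rw [hanti (Sum.inl n) (Sum.inl n) (Sum.inr w), abs_neg]
      exact hsize (Sum.inr w) (Sum.inl n) (Sum.inl n)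
    · intro n a b hc ha hb hab
      have hc : bil (E a : Z3 → E3) (E b : Z3 → E3) (E (Sum.inl n) : Z3 → E3) ≠ 0 := hc
      obtain ⟨p', k, h1, h2, h3⟩ := tri_ne a b (Sum.inl n) hc
      rw [hPE n] at h3
      have hn3 : 3 ≤ n := by
        rcases hab with ⟨w, hw⟩ | ⟨w, hw⟩
        · have := ha w hw; omega
        · have := hb w hw; omega
      -- frequencies of the low modes
      have hlow : ∀ (w : J) (x : Z3), g w + 3 ≤ n → (E (Sum.inr w) : Z3 → E3) x ≠ 0 →
          ‖vec x‖ ≤ 12 / 10 * K (n - 2) := by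
        intro w x hw hx
        refine (hF.up (Sum.inr w) x hx).trans ?_
        have : (K (gr g (Sum.inr w) + 1) : ℝ) ≤ K (n - 2) := by
          have h5 : gr g (Sum.inr w) + 1 ≤ n - 2 := by
            show g w + 1 ≤ n - 2
            omega
          exact_mod_cast K_mono q4 h5
        linarith
      rcases a with m | w
      · -- `b` is a low mode
        by_cases hmn : m = n
        · rw [hmn]
        · exfalso
          obtain ⟨w, hw⟩ : ∃ w, b = Sum.inr w := by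
            rcases hab with ⟨w, hw⟩ | hw
            · exact absurd hw (by simp)
            · exact hw
          subst hw
          rw [hPE m] at h1
          exact Psep hT h0 q4 (show (n - 2) + 2 ≤ n by omega) (fun h => hmn h.symm) h3 h1
            (hlow w (k - p') (hb w rfl) h2)
      · exfalso
        have hp := hlow w p' (ha w rfl) h1
        rcases b with m | w'
        · by_cases hmn : m = n
          · subst hmn
            have h5 := hanti (Sum.inl m) (Sum.inr w) (Sum.inl m)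
            apply hc
            linarith
          · rw [hPE m] at h2
            refine Psep hT h0 q4 (show (n - 2) + 2 ≤ n by omega) (fun h => hmn h.symm) h3 h2 ?_
            have h5 : k - (k - p') = p' := by abel
            rw [h5]
            exact hp
        · have hq := hlow w' (k - p') (hb w' rfl) h2
          have t1 : ‖vec k‖ ≤ ‖vec p'‖ + ‖vec (k - p')‖ := by
            rw [vec_sub]
            have := norm_add_le (vec p') (vec k - vec p')
            rwa [add_sub_cancel] at this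
          have hk : (K n : ℝ) ≤ ‖vec k‖ := by
            rcases hT.supp n k h3 with h4 | h4
            · exact h4.1
            · have h5 : ‖vec k‖ = ‖vec (h n)‖ := by
                rcases h4 with h5 | h5
                · rw [h5]
                · rw [h5, vec_neg_norm]
              rw [h5]
              refine le_trans ?_ (hT.hnorm n).1
              exact_mod_cast K_mono q4 (Nat.le_succ n)
          have h6 := K_lt h0 q4 (show n - 2 < n by omega)
          have h7 := hpos (n - 2)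
          linarith
    · intro i j n
      show bil (E (Sum.inl i) : Z3 → E3) (E (Sum.inl j) : Z3 → E3) (E (Sum.inl n) : Z3 → E3) = _
      rw [hPE i, hPE j, hPE n]
      exact hT.tab i j n

end Pool.Agent.Y248.ND
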